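import Pool.Agent.Lib.RosG.Main

/-!
# MP_e43e79_nt, Rosen's greedy sequence: Q1 in terms of the gaps and of the growth

Rows of the proof: Abel's theorem (helper40), ordered and unordered pairs (helper46), the limits
(helper20), Karamata's theorem (helper83), the rest (helper61).
-/

set_option autoImplicit false

namespace Pool.Agent.Results.MP_e43e79_nt.GapCriterion

open Filter Ne729cbcb

/-- For Rosen's greedy sequence `a` the following are equivalent: Q1, that is
`S(x) ≤ (1 + ε) x` for every `ε > 0` and all large `x`; `a_(k+1) / a_k → 1`;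
`a_k / k ^ 2 → π / 8`. -/
theorem result : List.TFAE [
    (∀ ε > (0 : ℝ), ∀ᶠ x : ℕ in atTop, (solutionCount x : ℝ) ≤ (1 + ε) * x),
    Tendsto (fun k : ℕ => (rosen (k + 1) : ℝ) / rosen k) atTop (nhds 1),
    Tendsto (fun k : ℕ => (rosen k : ℝ) / (k : ℝ) ^ 2) atTop (nhds (Real.pi / 8))] :=
  RosG.criterion

end Pool.Agent.Results.MP_e43e79_nt.GapCriterion
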