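import Pool.Agent.Lib.MP_e43e79_nt.Upper

set_option autoImplicit false

namespace Pool.Agent.Results.MP_e43e79_nt.UpperBound

open Ne729cbcb Pool.Agent.Lib.MP_e43e79_nt

/-- For Rosen's greedy sequence the number `S(x)` of pairs with sum at most `x` is at most
`3 x / 2`, for every `x`. -/
theorem result (x : ℕ) : (solutionCount x : ℝ) ≤ 3 / 2 * x := by
  have h := main x
  have h' : (2 : ℝ) * solutionCount x ≤ 3 * x := by exact_mod_cast h
  linarith

end Pool.Agent.Results.MP_e43e79_nt.UpperBound
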